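import Mathlib

namespace Pool.Agent.Results.MP_41928e_lc.NoMarkovNash

/-- A finite layered directed graph with layers indexed by `Fin L` (`L > 1`), all layers
non-empty, every edge going from a layer to the next one, and first layer equal to `{s}`. -/
structure LayeredGraph where
  V : Type
  fin : Fintype V
  L : ℕ
  one_lt_L : 1 < L
  layer : V → Fin L
  layer_nonempty : ∀ l : Fin L, ∃ v, layer v = l
  Edge : V → V → Prop
  edge_layer : ∀ u v, Edge u v → (layer v : ℕ) = (layer u : ℕ) + 1
  s : V
  source : ∀ v, (layer v : ℕ) = 0 ↔ v = s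

namespace LayeredGraph

variable (G : LayeredGraph)

/-- A path: a directed path from the source `s` to a vertex of the last layer, given as the
list of its `L` vertices. -/
def Path : Type :=
  {p : Fin G.L → G.V // p ⟨0, lt_trans Nat.zero_lt_one G.one_lt_L⟩ = G.s ∧
    ∀ (i : ℕ) (h : i + 1 < G.L), G.Edge (p ⟨i, lt_trans (Nat.lt_succ_self i) h⟩) (p ⟨i + 1, h⟩)}

noncomputable instance : Fintype G.Path := by
  classical
  haveI := G.fin
  exact inferInstanceAs (Fintype {p : Fin G.L → G.V // _})

variable {G}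

/-- The set of edges traversed by a path. -/
def Path.edges (p : G.Path) : Set (G.V × G.V) :=
  {e | ∃ (i : ℕ) (h : i + 1 < G.L), e = (p.1 ⟨i, lt_trans (Nat.lt_succ_self i) h⟩, p.1 ⟨i + 1, h⟩)}

/-- Attacker payoff for pure strategies: `1` if the two paths have no edge in common, else `0`.
The defender gets the negative of it. -/
noncomputable def payoff (pd pa : G.Path) : ℝ :=
  open scoped Classical in if Disjoint pd.edges pa.edges then 1 else 0

/-- Mixed strategies: probability distributions on the set of paths. -/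
def IsMixed (x : G.Path → ℝ) : Prop := (∀ p, 0 ≤ x p) ∧ ∑ p, x p = 1

/-- Expected attacker payoff. -/
noncomputable def expPayoff (xd xa : G.Path → ℝ) : ℝ :=
  ∑ p, ∑ q, xd p * xa q * payoff p q

/-- Nash equilibrium of the zero-sum game. -/
def IsNash (xd xa : G.Path → ℝ) : Prop :=
  IsMixed xd ∧ IsMixed xa ∧
    (∀ ya, IsMixed ya → expPayoff xd ya ≤ expPayoff xd xa) ∧
    (∀ yd, IsMixed yd → expPayoff xd xa ≤ expPayoff yd xa)

/-- A vertex is reached by a mixed strategy if some path of positive probability visits it. -/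
def Reached (x : G.Path → ℝ) (v : G.V) : Prop := ∃ p : G.Path, 0 < x p ∧ ∃ i, p.1 i = v

/-- A mixed strategy is Markovian if it is generated by transition probabilities `q v w` on the
edges `(v, w)`, summing to one over the out-edges of each reached vertex having out-edges. -/
def IsMarkovian (x : G.Path → ℝ) : Prop :=
  ∃ q : G.V → G.V → ℝ, (∀ v w, G.Edge v w → 0 ≤ q v w) ∧
    (∀ v, (∃ w, G.Edge v w) → Reached x v →
      (haveI := G.fin; open scoped Classical in ∑ w ∈ Finset.univ.filter (G.Edge v), q v w) = 1) ∧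
    ∀ p : G.Path, x p = ∏ i : Fin (G.L - 1),
      q (p.1 ⟨i.1, by have := i.2; omega⟩) (p.1 ⟨i.1 + 1, by have := i.2; omega⟩)

end LayeredGraph

open LayeredGraph

/-- edge relation of the example -/
def exEdge (u v : Fin 10) : Bool :=
  [(0, 1), (0, 2), (1, 3), (1, 4), (2, 3), (3, 5), (3, 6), (4, 6),
   (5, 7), (5, 8), (5, 9), (6, 7), (6, 8)].contains ((u : ℕ), (v : ℕ))

def exLayer : Fin 10 → Fin 5 := ![0, 1, 1, 2, 2, 3, 3, 4, 4, 4]

def exG : LayeredGraph where
  V := Fin 10
  fin := inferInstance
  L := 5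
  one_lt_L := by norm_num
  layer := exLayer
  layer_nonempty := by decide
  Edge := fun u v => exEdge u v = true
  edge_layer := by decide
  s := 0
  source := by decide


/-- the twelve paths of the example -/
def exV : Fin 12 → Fin 5 → Fin 10 :=
  ![![0, 1, 3, 5, 7], ![0, 1, 3, 5, 8], ![0, 1, 3, 5, 9], ![0, 1, 3, 6, 7], ![0, 1, 3, 6, 8],
    ![0, 1, 4, 6, 7], ![0, 1, 4, 6, 8], ![0, 2, 3, 5, 7], ![0, 2, 3, 5, 8], ![0, 2, 3, 5, 9],
    ![0, 2, 3, 6, 7], ![0, 2, 3, 6, 8]]

theorem exV_zero : ∀ k, exV k 0 = 0 := by decide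

theorem exV_edge : ∀ k, ∀ i : Fin 4, exEdge (exV k i.castSucc) (exV k i.succ) = true := by decide

def exP (k : Fin 12) : exG.Path :=
  ⟨exV k, exV_zero k, fun i h => by
    have h5 : i < 4 := by
      have : i + 1 < 5 := h
      omega
    exact exV_edge k ⟨i, h5⟩⟩

theorem exV_inj : ∀ j k, exV j = exV k → j = k := by decide

theorem exP_inj : Function.Injective exP := fun j k h => exV_inj j k (congrArg Subtype.val h)

theorem exV_surj : ∀ b, exEdge 0 b = true → ∀ c, exEdge b c = true → ∀ d, exEdge c d = true →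
    ∀ e, exEdge d e = true → ∃ k, exV k = ![0, b, c, d, e] := by decide

theorem exP_surj : Function.Surjective exP := by
  rintro ⟨p', h0, hE⟩
  let p : Fin 5 → Fin 10 := p'
  have h0' : p 0 = 0 := h0
  have e0 : exEdge (p 0) (p 1) = true := hE 0 (by decide)
  have e1 : exEdge (p 1) (p 2) = true := hE 1 (by decide)
  have e2 : exEdge (p 2) (p 3) = true := hE 2 (by decide)
  have e3 : exEdge (p 3) (p 4) = true := hE 3 (by decide)
  rw [h0'] at e0
  obtain ⟨k, hk⟩ := exV_surj (p 1) e0 (p 2) e1 (p 3) e2 (p 4) e3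
  refine ⟨k, Subtype.ext ?_⟩
  show exV k = p
  rw [hk]
  funext i
  fin_cases i
  · exact h0'.symm
  · rfl
  · rfl
  · rfl
  · rfl

noncomputable def exEquiv : Fin 12 ≃ exG.Path := Equiv.ofBijective exP ⟨exP_inj, exP_surj⟩

theorem sum_path (f : exG.Path → ℝ) : ∑ p, f p = ∑ k : Fin 12, f (exP k) :=
  (Equiv.sum_comp exEquiv f).symm

def exMeet (j k : Fin 12) : Bool :=
  decide (∃ i : Fin 4, exV j i.castSucc = exV k i.castSucc ∧ exV j i.succ = exV k i.succ)

theorem exMeet_iff : ∀ j k, exMeet j k = true ↔ ∃ i i' : Fin 4,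
    exV j i.castSucc = exV k i'.castSucc ∧ exV j i.succ = exV k i'.succ := by decide

theorem payoff_ex (j k : Fin 12) : payoff (exP j) (exP k) = if exMeet j k then 0 else 1 := by
  have key : Disjoint (exP j).edges (exP k).edges ↔ ¬ exMeet j k = true := by
    rw [exMeet_iff, Set.disjoint_left]
    constructor
    · rintro h ⟨i, i', h1, h2⟩
      refine h (a := (exV j i.castSucc, exV j i.succ)) ⟨i, ?_, rfl⟩ ⟨i', ?_, ?_⟩
      · have := i.2
        show i.1 + 1 < 5
        omega
      · have := i'.2
        show i'.1 + 1 < 5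
        omega
      · rw [h1, h2]; rfl
    · rintro h e ⟨i, hi, rfl⟩ ⟨i', hi', he⟩
      have hi5 : i + 1 < 5 := hi
      have hi5' : i' + 1 < 5 := hi'
      refine h ⟨⟨i, by omega⟩, ⟨i', by omega⟩, ?_, ?_⟩
      · exact congrArg Prod.fst he
      · exact congrArg Prod.snd he
  unfold payoff
  by_cases h : exMeet j k = true
  · rw [if_neg (by rw [key]; simp [h]), if_pos h]
  · rw [if_pos (by rw [key]; exact h), if_neg h]


/-- pure strategy -/
noncomputable def pureS (p : exG.Path) : exG.Path → ℝ :=
  open scoped Classical in fun q => if q = p then 1 else 0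

theorem pureS_mixed (p : exG.Path) : IsMixed (pureS p) := by
  classical
  refine ⟨fun q => ?_, ?_⟩
  · unfold pureS; split_ifs <;> norm_num
  · unfold pureS; simp

theorem expPayoff_pure (p : exG.Path) (xa : exG.Path → ℝ) :
    expPayoff (pureS p) xa = ∑ q, xa q * payoff p q := by
  classical
  unfold expPayoff pureS
  simp [ite_mul, Finset.sum_ite_eq']

/-- lift of weights on `Fin 12` to the paths -/
noncomputable def lift (w : Fin 12 → ℝ) : exG.Path → ℝ := fun p => w (exEquiv.symm p)

theorem lift_exP (w : Fin 12 → ℝ) (k : Fin 12) : lift w (exP k) = w k := by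
  unfold lift
  congr 1
  exact exEquiv.symm_apply_apply k

theorem expPayoff_eq (xd xa : exG.Path → ℝ) : expPayoff xd xa =
    ∑ j : Fin 12, ∑ k : Fin 12, xd (exP j) * xa (exP k) * (if exMeet j k then 0 else 1) := by
  unfold expPayoff
  rw [sum_path]
  refine Finset.sum_congr rfl fun j _ => ?_
  rw [sum_path]
  refine Finset.sum_congr rfl fun k _ => ?_
  rw [payoff_ex]

noncomputable def attW : Fin 12 → ℝ :=
  ![1/21, 1/21, 1/21, 0, 0, 1/7, 1/7, 2/21, 2/21, 2/21, 1/7, 1/7]

noncomputable def defW : Fin 12 → ℝ :=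
  ![2/21, 2/21, 2/21, 1/7, 1/7, 0, 0, 1/21, 1/21, 1/21, 1/7, 1/7]

def exTable : Fin 12 → Fin 12 → Bool :=
  ![![true, true, true, true, true, true, true, true, true, true, false, false],
    ![true, true, true, true, true, true, true, true, true, true, false, false],
    ![true, true, true, true, true, true, true, true, true, true, false, false],
    ![true, true, true, true, true, true, true, false, false, false, true, true],
    ![true, true, true, true, true, true, true, false, false, false, true, true],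
    ![true, true, true, true, true, true, true, false, false, false, true, false],
    ![true, true, true, true, true, true, true, false, false, false, false, true],
    ![true, true, true, false, false, false, false, true, true, true, true, true],
    ![true, true, true, false, false, false, false, true, true, true, true, true],
    ![true, true, true, false, false, false, false, true, true, true, true, true],
    ![false, false, false, true, true, true, false, true, true, true, true, true],
    ![false, false, false, true, true, false, true, true, true, true, true, true]]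

theorem exMeet_eq : ∀ j k, exMeet j k = exTable j k := by decide

/-- the attacker's payoff of the weights `w` against each pure defender path -/
theorem row_eq (w : Fin 12 → ℝ) (j : Fin 12) :
    ∑ q, lift w q * payoff (exP j) q = ∑ k : Fin 12, w k * (if exTable j k then 0 else 1) := by
  rw [sum_path]
  refine Finset.sum_congr rfl fun k _ => ?_
  rw [payoff_ex, lift_exP, exMeet_eq]

theorem att_mixed : IsMixed (lift attW) := by
  constructor
  · intro p
    obtain ⟨k, rfl⟩ := exP_surj p
    rw [lift_exP]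
    fin_cases k <;> simp [attW] <;> norm_num
  · rw [sum_path]
    simp only [lift_exP]
    simp [Fin.sum_univ_succ, attW]
    norm_num

theorem def_mixed : IsMixed (lift defW) := by
  constructor
  · intro p
    obtain ⟨k, rfl⟩ := exP_surj p
    rw [lift_exP]
    fin_cases k <;> simp [defW] <;> norm_num
  · rw [sum_path]
    simp only [lift_exP]
    simp [Fin.sum_univ_succ, defW]
    norm_num

theorem att_ge (j : Fin 12) : (2 : ℝ) / 7 ≤ ∑ k : Fin 12, attW k * (if exTable j k then 0 else 1) := by
  fin_cases j <;> simp [Fin.sum_univ_succ, attW, exTable] <;> norm_num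

theorem def_le (k : Fin 12) : ∑ j : Fin 12, defW j * (if exTable j k then 0 else 1) ≤ (2 : ℝ) / 7 := by
  fin_cases k <;> simp [Fin.sum_univ_succ, defW, exTable] <;> norm_num

/-- The attacker weights guarantee at least `2/7` against every mixed defender strategy. -/
theorem att_guarantee (xd : exG.Path → ℝ) (h : IsMixed xd) :
    (2 : ℝ) / 7 ≤ expPayoff xd (lift attW) := by
  rw [expPayoff_eq]
  have h1 : ∑ j : Fin 12, xd (exP j) = 1 := by rw [← sum_path]; exact h.2
  calc (2 : ℝ) / 7 = ∑ j : Fin 12, xd (exP j) * (2 / 7) := by rw [← Finset.sum_mul, h1, one_mul]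
    _ ≤ ∑ j : Fin 12, ∑ k : Fin 12, xd (exP j) * lift attW (exP k) * (if exMeet j k then 0 else 1) := by
        refine Finset.sum_le_sum fun j _ => ?_
        have := mul_le_mul_of_nonneg_left (att_ge j) (h.1 (exP j))
        refine this.trans (le_of_eq ?_)
        rw [Finset.mul_sum]
        refine Finset.sum_congr rfl fun k _ => ?_
        rw [lift_exP, exMeet_eq, mul_assoc]

theorem def_guarantee (xa : exG.Path → ℝ) (h : IsMixed xa) :
    expPayoff (lift defW) xa ≤ (2 : ℝ) / 7 := by
  rw [expPayoff_eq, Finset.sum_comm]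
  have h1 : ∑ j : Fin 12, xa (exP j) = 1 := by rw [← sum_path]; exact h.2
  calc ∑ k : Fin 12, ∑ j : Fin 12, lift defW (exP j) * xa (exP k) * (if exMeet j k then 0 else 1)
      ≤ ∑ k : Fin 12, xa (exP k) * (2 / 7) := by
        refine Finset.sum_le_sum fun k _ => ?_
        have := mul_le_mul_of_nonneg_left (def_le k) (h.1 (exP k))
        refine (le_of_eq ?_).trans this
        rw [Finset.mul_sum]
        refine Finset.sum_congr rfl fun j _ => ?_
        rw [lift_exP, exMeet_eq]
        ring
    _ = 2 / 7 := by rw [← Finset.sum_mul, h1, one_mul]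

theorem nash_exists : IsNash (lift defW) (lift attW) := by
  have e : expPayoff (lift defW) (lift attW) = 2 / 7 :=
    le_antisymm (def_guarantee _ att_mixed) (att_guarantee _ def_mixed)
  refine ⟨def_mixed, att_mixed, fun ya h => ?_, fun yd h => ?_⟩
  · rw [e]; exact def_guarantee ya h
  · rw [e]; exact att_guarantee yd h

theorem nash_rows (xd xa : exG.Path → ℝ) (h : IsNash xd xa) (j : Fin 12) :
    (2 : ℝ) / 7 ≤ ∑ k : Fin 12, xa (exP k) * (if exTable j k then 0 else 1) := by
  have h1 := (att_guarantee xd h.1).trans (h.2.2.1 _ att_mixed)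
  have h2 := h1.trans (h.2.2.2 _ (pureS_mixed (exP j)))
  rw [expPayoff_pure, sum_path] at h2
  refine h2.trans (le_of_eq ?_)
  refine Finset.sum_congr rfl fun k _ => ?_
  rw [payoff_ex, exMeet_eq]

theorem linear_core (b : Fin 12 → ℝ) (h0 : ∀ k, 0 ≤ b k) (h1 : ∑ k, b k = 1)
    (hr : ∀ j, (2 : ℝ) / 7 ≤ ∑ k : Fin 12, b k * (if exTable j k then 0 else 1)) :
    b 3 + b 4 = 0 ∧ 0 < b 0 + b 1 + b 2 ∧ 0 < b 10 + b 11 := by
  have r0 := hr 0
  have r3 := hr 3
  have r5 := hr 5
  have r6 := hr 6
  have r7 := hr 7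
  have r10 := hr 10
  have r11 := hr 11
  simp only [Fin.sum_univ_succ, exTable] at r0 r3 r5 r6 r7 r10 r11 h1
  simp at r0 r3 r5 r6 r7 r10 r11 h1
  have e3 := h0 3
  have e4 := h0 4
  norm_num [Fin.succ] at r0 r3 r5 r6 r7 r10 r11 h1 e3 e4
  refine ⟨?_, ?_, ?_⟩
  · linarith
  · linarith
  · linarith

theorem prod_ex (q : Fin 10 → Fin 10 → ℝ) (k : Fin 12) :
    (∏ i : Fin 4, q (exV k i.castSucc) (exV k i.succ)) =
      q (exV k 0) (exV k 1) * q (exV k 1) (exV k 2) * q (exV k 2) (exV k 3) *
        q (exV k 3) (exV k 4) := by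
  rw [Fin.prod_univ_four]
  rfl

/-- In every Nash equilibrium of the example the attacker's strategy is not Markovian. -/
theorem not_markov (xd xa : exG.Path → ℝ) (h : IsNash xd xa) : ¬ IsMarkovian xa := by
  rintro ⟨q', _, _, hq⟩
  let q : Fin 10 → Fin 10 → ℝ := q'
  have key : ∀ k : Fin 12, xa (exP k) =
      q (exV k 0) (exV k 1) * q (exV k 1) (exV k 2) * q (exV k 2) (exV k 3) *
        q (exV k 3) (exV k 4) := by
    intro k
    rw [← prod_ex, hq]
    rfl
  obtain ⟨c1, c2, c3⟩ := linear_core (fun k => xa (exP k)) (fun k => h.2.1.1 _)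
    (by rw [← sum_path]; exact h.2.1.2) (nash_rows xd xa h)
  have n3 := h.2.1.1 (exP 3)
  have n4 := h.2.1.1 (exP 4)
  have z3 : xa (exP 3) = 0 := by linarith
  have z4 : xa (exP 4) = 0 := by linarith
  have k0 : xa (exP 0) = q 0 1 * q 1 3 * q 3 5 * q 5 7 := key 0
  have k1 : xa (exP 1) = q 0 1 * q 1 3 * q 3 5 * q 5 8 := key 1
  have k2 : xa (exP 2) = q 0 1 * q 1 3 * q 3 5 * q 5 9 := key 2
  have k3 : xa (exP 3) = q 0 1 * q 1 3 * q 3 6 * q 6 7 := key 3
  have k4 : xa (exP 4) = q 0 1 * q 1 3 * q 3 6 * q 6 8 := key 4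
  have k10 : xa (exP 10) = q 0 2 * q 2 3 * q 3 6 * q 6 7 := key 10
  have k11 : xa (exP 11) = q 0 2 * q 2 3 * q 3 6 * q 6 8 := key 11
  have ne1 : q 0 1 * q 1 3 ≠ 0 := by
    intro h0
    have : xa (exP 0) + xa (exP 1) + xa (exP 2) = 0 := by
      rw [k0, k1, k2, h0]; ring
    exact absurd c2 (by rw [this]; exact lt_irrefl 0)
  have y3 : q 3 6 * q 6 7 = 0 := by
    rw [k3, mul_assoc] at z3
    exact (mul_eq_zero.1 z3).resolve_left ne1
  have y4 : q 3 6 * q 6 8 = 0 := by
    rw [k4, mul_assoc] at z4
    exact (mul_eq_zero.1 z4).resolve_left ne1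
  have : xa (exP 10) + xa (exP 11) = 0 := by
    rw [k10, k11, mul_assoc, mul_assoc (q 0 2 * q 2 3), y3, y4]; ring
  exact absurd c3 (by rw [this]; exact lt_irrefl 0)

/-- There is a layered graph whose edge-interdiction path game has a Nash equilibrium, but has
no Nash equilibrium in which both strategies are Markovian. -/
theorem result : ∃ G : LayeredGraph,
    (∃ xd xa : G.Path → ℝ, IsNash xd xa) ∧
    ∀ xd xa : G.Path → ℝ, IsNash xd xa → ¬ (IsMarkovian xd ∧ IsMarkovian xa) :=
  ⟨exG, ⟨_, _, nash_exists⟩, fun xd xa h hm => not_markov xd xa h hm.2⟩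

end Pool.Agent.Results.MP_41928e_lc.NoMarkovNash
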